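import Pool.Agent.Work.MP_0c03d4_ag.Family

namespace Pool.Agent.Results.MP_0c03d4_ag.Realizable

open Pool.Agent.Work.MP_0c03d4_ag

/-- The weak combinatorial type `W` is realizable. -/
theorem result : ∃ K : Fin 4 × Bool → MvPolynomial (Fin 3) ℂ, IsTypeW K :=
  ⟨KK 1 Complex.I, isTypeW good_one⟩

end Pool.Agent.Results.MP_0c03d4_ag.Realizable
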