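import Pool.Agent.Work.MP_0c03d4_ag.Main
import Pool.Agent.Work.MP_0c03d4_ag.Alex

namespace Pool.Agent.Results.MP_0c03d4_ag.SameAlexander

open Pool.Agent.Work.MP_0c03d4_ag

/-- Any two curves of weak combinatorial type `W` have conjugate monodromies, hence the same
Alexander polynomial. -/
theorem result (K K' : Fin 4 × Bool → MvPolynomial (Fin 3) ℂ) (hK : IsTypeW K) (hK' : IsTypeW K') :
    ∃ (hf : (∏ c, K c).IsHomogeneous 12) (hf' : (∏ c, K' c).IsHomogeneous 12),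
      ConjFibre hf hf' ∧ ConjH1 hf hf' ∧
      ∀ [Module.Finite ℚ (MilnorH1 (∏ c, K c))] [Module.Finite ℚ (MilnorH1 (∏ c, K' c))],
        alexander hf = alexander hf' := by
  obtain ⟨φ, hφ⟩ := same_monodromy hK hK'
  have he : ConjH1 hK.hom hK'.hom := H1_conj φ _ _ hφ
  refine ⟨hK.hom, hK'.hom, ⟨φ, hφ⟩, he, ?_⟩
  intro _ _
  obtain ⟨e, he⟩ := he
  exact charpoly_eq e _ _ he

end Pool.Agent.Results.MP_0c03d4_ag.SameAlexander
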